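import Pool.Agent.V1142.XZ.Hodge
import Pool.Agent.V1142.XZ.Deg
import Pool.Agent.Y163.TateB
import Pool.Agent.Y133.Half.TrueTate

/-!
# Pole orders of zeta functions and ranks of cycles on the products `Z × X^n`
-/

set_option autoImplicit false
set_option linter.unusedSectionVars false

open CategoryTheory AlgebraicGeometry Filter Topology

open scoped ENNReal

universe u v

namespace Pool.Agent.H44T.PT

open Module
open Pool.Agent.H914 Pool.Agent.H914.VarClass Pool.Agent.H914.VarClass.Obj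
  Pool.Agent.H914.WeilCohomology Pool.Agent.W534 Pool.Agent.H281R3.HT
open Pool.Agent.Y133.Half (cycRank algSys tateSys TC Sys algDim pw numDim_eq_cycRank)
open Pool.Agent.Y163 (genU mem_genU genU_eq span_le_genU poleOrderIs Big
  PoleOrderIs divPow_fund_mem cl_divPow_fund)
open Pool.Agent.V1142.XZ (Pair base_law)

variable {k : Type u} [Field k] {𝒱 : VarClass k} {ops : CycleOps 𝒱}
  {W : WeilCohomology.{u, v} ops} {p : ℕ} (Φ : FrobSystem W p)

/-- the graded pieces of the generalised Tate classes -/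
theorem proj_TC {Z : 𝒱.Obj} {x : W.H Z} (hx : x ∈ TC Φ Z) (j : ℕ) :
    proj (W.isInternal Z) (2 * j) x ∈ genU Φ Z j := by
  obtain ⟨s, hs, h⟩ := TC.level hx
  exact (mem_genU Φ).2 ⟨s, hs, h j⟩

theorem genU_le_TC (Z : 𝒱.Obj) (j : ℕ) : genU Φ Z j ≤ TC Φ Z := by
  intro x hx
  obtain ⟨s, hs, h⟩ := (mem_genU Φ).1 hx
  exact TC.of hs h

theorem genU_gr {Z : 𝒱.Obj} {j : ℕ} {x : W.H Z} (hx : x ∈ genU Φ Z j) : x ∈ W.gr Z (2 * j) := by
  obtain ⟨s, -, h⟩ := (mem_genU Φ).1 hx
  exact h.2

/-- the dimension of the space of the generalised Tate classes -/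
theorem finrank_TC (Z : 𝒱.Obj) :
    finrank W.K (TC Φ Z) = ∑ j ∈ Finset.range (Z.dim + 1), finrank W.K (genU Φ Z j) := by
  rw [← Fin.sum_univ_eq_sum_range (fun j => finrank W.K (genU Φ Z j)),
    ← Module.finrank_pi_fintype]
  let θ : TC Φ Z →ₗ[W.K] (∀ j : Fin (Z.dim + 1), genU Φ Z j) :=
    LinearMap.pi fun j => ((proj (W.isInternal Z) (2 * j)).comp (TC Φ Z).subtype).codRestrict _
      fun x => proj_TC Φ x.2 j
  have hθ : ∀ x (j : Fin (Z.dim + 1)), ((θ x j : genU Φ Z j) : W.H Z) =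
      proj (W.isInternal Z) (2 * j) x := fun _ _ => rfl
  refine (LinearEquiv.ofBijective θ ⟨?_, ?_⟩).finrank_eq
  · rw [← LinearMap.ker_eq_bot, LinearMap.ker_eq_bot']
    rintro ⟨x, hx⟩ h0
    have h1 : ∀ j, proj (W.isInternal Z) (2 * j) x = 0 := by
      intro j
      by_cases hj : j < Z.dim + 1
      · have h2 := congrFun h0 ⟨j, hj⟩
        have h3 := congrArg Subtype.val h2
        rw [hθ] at h3
        exact h3
      · have h2 := proj_mem (W.isInternal Z) (2 * j) x
        rw [W.gr_eq_bot Z _ (by omega)] at h2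
        exact (Submodule.mem_bot _).1 h2
    apply Subtype.ext
    have h2 : ∀ i, proj (W.isInternal Z) i x = 0 := by
      intro i
      rcases Nat.even_or_odd' i with ⟨l, rfl | rfl⟩
      · exact h1 l
      · refine TC.ind (q := fun x => proj (W.isInternal Z) (2 * l + 1) x = 0) ?_ ?_ ?_ hx
        · intro s j _ y hy
          exact proj_ne _ hy.2 (by omega)
        · rw [map_zero]
        · intro a b ha hb
          rw [map_add, ha, hb, add_zero]
    have h3 := congrArg (fun f => f x) (sum_proj (W.isInternal Z) (N := 2 * Z.dim + 1)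
      fun i hi => W.gr_eq_bot Z i (by omega))
    simp only [LinearMap.sum_apply, h2, Finset.sum_const_zero, Module.End.one_apply] at h3
    exact h3.symm
  · intro y
    refine ⟨⟨∑ j, (y j : W.H Z), Submodule.sum_mem _ fun j _ => genU_le_TC Φ Z j (y j).2⟩, ?_⟩
    funext j
    apply Subtype.ext
    rw [hθ]
    change proj (W.isInternal Z) (2 * j) (∑ j, (y j : W.H Z)) = _
    rw [map_sum, Finset.sum_eq_single j]
    · exact proj_same _ (genU_gr Φ (y j).2)
    · intro i _ hi
      refine proj_ne _ (genU_gr Φ (y i).2) ?_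
      intro h
      exact hi (Fin.ext (by omega))
    · intro h
      exact absurd (Finset.mem_univ _) h

/-- the ranks of the cycles are bounded by the orders of the poles -/
theorem numRank_le (Z : 𝒱.Obj) {j : ℕ} (hj : j ≤ Z.dim) :
    numRank ops Z j ≤ finrank W.K (genU Φ Z j) := by
  rw [numRank_eq (W := W) hj]
  exact (Pool.Agent.W534.kRank_le _ _).trans (Submodule.finrank_mono (span_le_genU Φ _ _))

theorem cyc_eq (Z : 𝒱.Obj) : (algSys W).a Z = cycRank ops Z := numDim_eq_cycRank W Z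

/-- orders of poles are unique -/
theorem pole_unique {σ : W.K →+* ℂ} {Z : 𝒱.Obj} {j a b : ℕ} (ha : PoleOrderIs Φ σ Z j a)
    (hb : PoleOrderIs Φ σ Z j b) : a = b := by
  obtain ⟨s, hs, h1⟩ := ha
  obtain ⟨t, ht, h2⟩ := hb
  have h3 := (h1 (s * t) (Nat.mul_pos hs ht) (Dvd.intro t rfl)).symm.trans
    (h2 (s * t) (Nat.mul_pos hs ht) (Dvd.intro_left s rfl))
  have h4 := WithTop.coe_injective h3
  omega

/-- the pole formula in all degrees -/
theorem pole_iff {σ : W.K →+* ℂ} (hp : 1 < p) {Z : 𝒱.Obj} (hRH : RiemannHyp Φ σ Z) :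
    (∀ j ≤ Z.dim, PoleFormula Φ σ Z j) ↔
      (algSys W).C Z = (tateSys Φ).C Z ∧ (algSys W).Num Z = ⊥ := by
  have hle := Submodule.finrank_mono (Pool.Agent.Y133.Half.alg_le_tate Φ Z)
  have hadd := (algSys W).a_add_num Z
  have hT : finrank W.K ((tateSys Φ).C Z) =
      ∑ j ∈ Finset.range (Z.dim + 1), finrank W.K (genU Φ Z j) := finrank_TC Φ Z
  constructor
  · intro h
    have h1 : ∀ j ∈ Finset.range (Z.dim + 1), numRank ops Z j = finrank W.K (genU Φ Z j) := by
      intro j hj
      rw [Finset.mem_range] at hj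
      exact pole_unique Φ (h j (by omega)) (poleOrderIs hp hRH (by omega))
    have h2 : (algSys W).a Z = finrank W.K ((tateSys Φ).C Z) := by
      rw [cyc_eq, hT]
      exact Finset.sum_congr rfl h1
    refine ⟨Submodule.eq_of_le_of_finrank_le (Pool.Agent.Y133.Half.alg_le_tate Φ Z) (by omega), ?_⟩
    rw [← Submodule.finrank_eq_zero]
    omega
  · rintro ⟨h1, h2⟩ j hj
    rw [h2, finrank_bot, add_zero, h1, cyc_eq, hT] at hadd
    have h3 : numRank ops Z j = finrank W.K (genU Φ Z j) := by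
      by_contra hne
      have h4 := Finset.sum_lt_sum (s := Finset.range (Z.dim + 1))
        (f := fun j => numRank ops Z j) (g := fun j => finrank W.K (genU Φ Z j))
        (fun i hi => numRank_le Φ Z (by rw [Finset.mem_range] at hi; omega))
        ⟨j, Finset.mem_range.2 (by omega), lt_of_le_of_ne (numRank_le Φ Z hj) hne⟩
      exact h4.ne hadd
    have h4 := poleOrderIs hp hRH hj
    rw [← h3] at h4
    exact h4

/-- the natural number `m` is the sum of the orders of the poles of the zeta function of `Y` at the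
integers between `0` and `dim Y`, over all sufficiently large finite fields -/
def IsPoleTotal (σ : W.K →+* ℂ) (Y : 𝒱.Obj) (m : ℕ) : Prop :=
  ∃ f : ℕ → ℕ, (∀ j ≤ Y.dim, PoleOrderIs Φ σ Y j (f j)) ∧ m = ∑ j ∈ Finset.range (Y.dim + 1), f j

theorem poleTotal (σ : W.K →+* ℂ) (hp : 1 < p) {Y : 𝒱.Obj} (hRH : RiemannHyp Φ σ Y) :
    IsPoleTotal Φ σ Y (finrank W.K ((tateSys Φ).C Y)) :=
  ⟨fun j => finrank W.K (genU Φ Y j), fun _ hj => poleOrderIs hp hRH hj, finrank_TC Φ Y⟩

/-- algebraic classes and generalised Tate classes -/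
theorem tate_pair (hlam : ∀ Z : 𝒱.Obj, Nontrivial (W.H Z) → ∃ D, Z.IsCyc 1 D ∧ Big ops Z D) :
    Pair (algSys W) (tateSys Φ) where
  le := Pool.Agent.Y133.Half.alg_le_tate Φ
  nondeg _ _ hx h := TC.nondeg hx h
  lam Z hZ := by
    obtain ⟨D, hD, hbig⟩ := hlam Z hZ
    have h2 := hbig.tr hD (W := W)
    have h3 : W.cl Z D ^ Z.dim ∈ (algSys W).C Z := by
      rw [← cl_divPow_fund]
      exact Submodule.subset_span (Set.mem_iUnion.2 ⟨Z.dim, _, divPow_fund_mem hD _, rfl⟩)
    exact ⟨(W.tr Z (W.cl Z D ^ Z.dim))⁻¹ • W.cl Z D ^ Z.dim, Submodule.smul_mem _ _ h3, by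
      rw [map_smul, smul_eq_mul, inv_mul_cancel₀ h2]⟩

end Pool.Agent.H44T.PT
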